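import Pool.Agent.H570R2.ZamAsymp

/-!
# The zero-information Arthur-Merlin complexity of INDEX is sub-polynomial

`AMProtocol`, `AMProtocol.IsZAM` and `ZAM` are defined in `Pool.Agent.H570R2.ZamDefs` (a file of the
starting point), exactly as in the problem file.
-/

set_option autoImplicit false

namespace Pool.Agent.Results.MP_63af43_lc.IndexSubpoly

open Filter Pool.Agent.H570R2

/-- `INDEX_n : {0,1}^n × [n] → {0,1}`, `INDEX_n(x, y) = x_y`. -/
def INDEX (n : ℕ) (x : Fin n → Bool) (y : Fin n) : Bool := x y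

/-! ### Reductions -/

/-- Substituting the input of Alice in a protocol. -/
def pull {X X' Y : Type} (P : AMProtocol X' Y) (φ : X → X') : AMProtocol X Y where
  R := P.R
  Q := P.Q
  finR := P.finR
  finQ := P.finQ
  neR := P.neR
  neQ := P.neQ
  m := P.m
  A := fun i => {p | (φ p.1, p.2) ∈ P.A i}
  B := P.B

lemma pull_hits {X X' Y : Type} (P : AMProtocol X' Y) (φ : X → X') (x : X) (y : Y) (r : P.R)
    (q : P.Q) (i : Fin P.m) : (pull P φ).Hits x y r q i ↔ P.Hits (φ x) y r q i := Iff.rfl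

lemma pull_isZAM {X X' Y : Type} (f : X → Y → Bool) (g : X' → Y → Bool) (φ : X → X')
    (h : ∀ x y, g (φ x) y = f x y) (P : AMProtocol X' Y) (hP : P.IsZAM g) :
    (pull P φ).IsZAM f := by
  refine ⟨fun x y hxy => ?_, fun x y hxy => ?_, fun x y hxy r q i j hi hj => ?_,
    fun x y x' y' hxy hxy' o => ?_⟩
  · exact hP.completeness (φ x) y (by rw [h, hxy])
  · exact hP.soundness (φ x) y (by rw [h, hxy])
  · exact hP.unambiguous (φ x) y (by rw [h, hxy]) r q i j hi hj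
  · exact hP.zeroInformation (φ x) y (φ x') y' (by rw [h, hxy]) (by rw [h, hxy']) o

lemma ZAM_mono {X X' Y : Type} (f : X → Y → Bool) (g : X' → Y → Bool) (φ : X → X')
    (h : ∀ x y, g (φ x) y = f x y) : ZAM f ≤ ZAM g := by
  unfold ZAM
  refine le_iInf fun P => le_iInf fun hP => ?_
  exact iInf_le_of_le (pull P φ) (iInf_le_of_le (pull_isZAM f g φ h P hP) le_rfl)

/-! ### Asymptotics -/

lemma main_bound (n : ℕ) (hn : 4 ≤ n) :
    ZAM (INDEX n) ≤ ((⌊(2 : ℝ) ^ (54 * Real.sqrt (Real.logb 2 n *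
      Real.logb 2 (Real.logb 2 n)))⌋₊ : ℕ) : ℕ∞) :=
  ZAM_le_of_card_le (INDEX n) n hn (by simp)

lemma eventually_le (ε : ℝ) (hε : 0 < ε) :
    ∀ᶠ n : ℕ in atTop, ZAM (INDEX n) ≤ ((⌊(n : ℝ) ^ ε⌋₊ : ℕ) : ℕ∞) := by
  have h1 : Tendsto (fun n : ℕ => Real.logb 2 (n : ℝ)) atTop atTop :=
    (Real.tendsto_logb_atTop (by norm_num)).comp tendsto_natCast_atTop_atTop
  have h2 := h1.eventually (eventually_sqrt_le 54 ε (by norm_num) hε)
  filter_upwards [h2, eventually_ge_atTop 4] with n hn hn4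
  refine (main_bound n hn4).trans ?_
  rw [Nat.cast_le]
  apply Nat.floor_le_floor
  have hn0 : (0 : ℝ) < n := by
    have : 0 < n := by omega
    exact_mod_cast this
  calc (2 : ℝ) ^ (54 * Real.sqrt (Real.logb 2 n * Real.logb 2 (Real.logb 2 n)))
      ≤ (2 : ℝ) ^ (ε * Real.logb 2 n) :=
        Real.rpow_le_rpow_of_exponent_le (by norm_num) hn
    _ = (n : ℝ) ^ ε := by
        rw [mul_comm, Real.rpow_mul (by norm_num), Real.rpow_logb (by norm_num) (by norm_num) hn0]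

/-- **The zero-information Arthur-Merlin complexity of INDEX.**
(1) `ZAM(INDEX_n) ≤ 2 ^ (54 √(log₂ n · log₂ log₂ n))` for all `n ≥ 4`.
(2) Hence `ZAM(INDEX_n) ≤ n ^ ε` for all large `n`, for every `ε > 0`.
(3) The conjectured bound `ZAM(INDEX_n) = Ω(n)` is false, and more strongly no bound
`ZAM(INDEX_n) ≥ c n ^ δ` with `c, δ > 0` holds for infinitely many `n`.
(4) `INDEX_n` is the hardest function for which Bob has `n` inputs: `ZAM(f) ≤ ZAM(INDEX_n)` for all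
sets `X` and all `f : X × [n] → {0,1}`, so that (1) and (2) hold for all these functions. -/
theorem result :
    (∀ n : ℕ, 4 ≤ n →
      ZAM (INDEX n) ≤ ((⌊(2 : ℝ) ^ (54 * Real.sqrt (Real.logb 2 n *
        Real.logb 2 (Real.logb 2 n)))⌋₊ : ℕ) : ℕ∞)) ∧
    (∀ ε : ℝ, 0 < ε → ∀ᶠ n : ℕ in atTop, ZAM (INDEX n) ≤ ((⌊(n : ℝ) ^ ε⌋₊ : ℕ) : ℕ∞)) ∧
    (∀ c δ : ℝ, 0 < c → 0 < δ → ∀ᶠ n : ℕ in atTop,
      ((ZAM (INDEX n) : ℕ∞) : ENNReal) < ENNReal.ofReal (c * (n : ℝ) ^ δ)) ∧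
    (∀ (n : ℕ) (X : Type) (f : X → Fin n → Bool), ZAM f ≤ ZAM (INDEX n)) := by
  refine ⟨main_bound, eventually_le, ?_, ?_⟩
  · intro c δ hc hδ
    have h1 := eventually_le (δ / 2) (by linarith)
    have h2 : Tendsto (fun n : ℕ => (n : ℝ) ^ (δ / 2)) atTop atTop :=
      (tendsto_rpow_atTop (by linarith)).comp tendsto_natCast_atTop_atTop
    filter_upwards [h1, h2.eventually_gt_atTop (1 / c), eventually_ge_atTop 1] with n hn hn2 hn1
    have hn0 : (0 : ℝ) < n := by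
      have : 0 < n := by omega
      exact_mod_cast this
    have h3 : ((ZAM (INDEX n) : ℕ∞) : ENNReal) ≤ ((⌊(n : ℝ) ^ (δ / 2)⌋₊ : ℕ) : ENNReal) := by
      have := ENat.toENNReal_le.2 hn
      simpa using this
    refine lt_of_le_of_lt h3 ?_
    rw [← ENNReal.ofReal_natCast]
    rw [ENNReal.ofReal_lt_ofReal_iff (by positivity)]
    have h4 : ((⌊(n : ℝ) ^ (δ / 2)⌋₊ : ℕ) : ℝ) ≤ (n : ℝ) ^ (δ / 2) :=
      Nat.floor_le (by positivity)
    have h5 : (n : ℝ) ^ δ = (n : ℝ) ^ (δ / 2) * (n : ℝ) ^ (δ / 2) := by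
      rw [← Real.rpow_add hn0]
      congr 1
      ring
    have h6 : 1 < c * (n : ℝ) ^ (δ / 2) := by
      have := (div_lt_iff₀ hc).1 hn2
      linarith
    have h7 : 0 < (n : ℝ) ^ (δ / 2) := by positivity
    calc ((⌊(n : ℝ) ^ (δ / 2)⌋₊ : ℕ) : ℝ) ≤ (n : ℝ) ^ (δ / 2) := h4
      _ < c * (n : ℝ) ^ (δ / 2) * (n : ℝ) ^ (δ / 2) := by nlinarith
      _ = c * (n : ℝ) ^ δ := by rw [h5]; ring
  · intro n X f
    exact ZAM_mono f (INDEX n) f (fun x y => rfl)

end Pool.Agent.Results.MP_63af43_lc.IndexSubpoly
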